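import Pool.Agent.Helper62.LH.StA

/-!
# Project LH (MP_087a81_gt), module CUT: cut-off functions
-/

set_option autoImplicit false

namespace Pool.Agent.Helper72.LH

open Helper62.LH
open Set Filter Topology MeasureTheory
open scoped ContDiff

/-- the profile: `1` for `s ≤ 5/8`, `0` for `s ≥ 7/8` -/
theorem profile_CUT : ∃ (ψ : ℝ → ℝ) (M : ℝ), 0 < M ∧ ContDiff ℝ ∞ ψ ∧ (∀ s, 0 ≤ ψ s ∧ ψ s ≤ 1) ∧
    (∀ s, s ≤ 5 / 8 → ψ s = 1) ∧ (∀ s, 7 / 8 ≤ s → ψ s = 0) ∧ ∀ s, |deriv ψ s| ≤ M := by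
  let ψ : ℝ → ℝ := fun s => 1 - Real.smoothTransition (4 * (s - 5 / 8))
  have hψ : ContDiff ℝ ∞ ψ := by
    have h1 : ContDiff ℝ ∞ (fun s : ℝ => 4 * (s - 5 / 8)) := by fun_prop
    exact contDiff_const.sub (Real.smoothTransition.contDiff.comp h1)
  have h1 : ∀ s, s ≤ 5 / 8 → ψ s = 1 := by
    intro s hs
    show 1 - Real.smoothTransition (4 * (s - 5 / 8)) = 1
    rw [Real.smoothTransition.zero_of_nonpos (by linarith), sub_zero]
  have h0 : ∀ s, 7 / 8 ≤ s → ψ s = 0 := by
    intro s hs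
    show 1 - Real.smoothTransition (4 * (s - 5 / 8)) = 0
    rw [Real.smoothTransition.one_of_one_le (by linarith), sub_self]
  have hcont : Continuous (deriv ψ) := hψ.continuous_deriv (by simp)
  obtain ⟨M, hM⟩ := (isCompact_Icc (a := (1 / 2 : ℝ)) (b := 1)).exists_bound_of_continuousOn
    (f := deriv ψ) hcont.continuousOn
  refine ⟨ψ, max M 0 + 1, by positivity, hψ, ?_, h1, h0, ?_⟩
  · intro s
    have h2 := Real.smoothTransition.nonneg (4 * (s - 5 / 8))
    have h3 := Real.smoothTransition.le_one (4 * (s - 5 / 8))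
    constructor
    · show 0 ≤ 1 - Real.smoothTransition (4 * (s - 5 / 8))
      linarith
    · show 1 - Real.smoothTransition (4 * (s - 5 / 8)) ≤ 1
      linarith
  · intro s
    by_cases hs : s ∈ Icc (1 / 2 : ℝ) 1
    · have h4 := hM s hs
      rw [Real.norm_eq_abs] at h4
      have h5 := le_max_left M 0
      linarith
    · have h6 : deriv ψ s = 0 := by
        rw [mem_Icc, not_and_or] at hs
        rcases hs with hs | hs
        · have h7 : ψ =ᶠ[𝓝 s] fun _ => 1 := by
            filter_upwards [Iio_mem_nhds (show s < 5 / 8 by linarith)] with t ht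
            exact h1 t (le_of_lt ht)
          rw [h7.deriv_eq]
          simp
        · have h7 : ψ =ᶠ[𝓝 s] fun _ => 0 := by
            filter_upwards [Ioi_mem_nhds (show 7 / 8 < s by linarith)] with t ht
            exact h0 t (le_of_lt ht)
          rw [h7.deriv_eq]
          simp
      rw [h6, abs_zero]
      positivity

theorem hCut (hSm : StSm) : StCut := by
  intro n g Γ hg hΓ p b κ r0 hb
  obtain ⟨ψ, M, hM, hψ, hψ01, hψ1, hψ0, hψd⟩ := profile_CUT
  obtain ⟨b', hb's, hb'⟩ := hSm n g Γ hg hΓ b hb.lip hb.cvx (fun _ => 1) continuous_const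
    (fun _ => one_pos)
  have hb'c : Continuous b' := hb's.continuous
  have main : ∀ R : ℝ, 9 ≤ R → ∃ χ : E n → ℝ, Cc χ ∧ (∀ x, 0 ≤ χ x ∧ χ x ≤ 1) ∧
    (∀ x, b x ≤ R / 2 → χ x = 1 ∧ fderiv ℝ χ x = 0) ∧
    (∀ x, R ≤ b x → χ x = 0 ∧ fderiv ℝ χ x = 0) ∧
    ∀ x v, |fderiv ℝ χ x v| ≤ 2 * M / R * nr g x v := by
    intro R hR
    have hR0 : 0 < R := by linarith
    let χ : E n → ℝ := fun x => ψ (b' x / R)
    have hχ1 : ∀ x, b' x ≤ 5 / 8 * R → χ x = 1 := by
      intro x hx
      exact hψ1 _ (by rw [div_le_iff₀ hR0]; exact hx)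
    have hχ0 : ∀ x, 7 / 8 * R ≤ b' x → χ x = 0 := by
      intro x hx
      exact hψ0 _ (by rw [le_div_iff₀ hR0]; exact hx)
    have hχs : ContDiff ℝ ∞ χ := hψ.comp (hb's.div_const R)
    refine ⟨χ, ⟨hχs, ?_⟩, fun x => hψ01 _, ?_, ?_, ?_⟩
    · -- compact support
      have hK : IsCompact {x | b' x ≤ 7 / 8 * R} := by
        refine (hb.prop (7 / 8 * R + 1)).of_isClosed_subset
          (isClosed_le hb'c continuous_const) ?_
        intro x hx
        have h1 := (abs_le.1 (hb' x).1).1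
        have h2 : b' x ≤ 7 / 8 * R := hx
        show b x ≤ 7 / 8 * R + 1
        linarith
      refine HasCompactSupport.intro hK ?_
      intro x hx
      have h1 : ¬ b' x ≤ 7 / 8 * R := hx
      exact hχ0 x (by linarith)
    · intro x hx
      have h1 := (abs_le.1 (hb' x).1).2
      have h2 : b' x < 5 / 8 * R := by linarith
      refine ⟨hχ1 x h2.le, ?_⟩
      have h3 : χ =ᶠ[𝓝 x] fun _ => (1 : ℝ) := by
        filter_upwards [(isOpen_lt hb'c continuous_const).mem_nhds h2] with y hy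
        exact hχ1 y (le_of_lt hy)
      rw [h3.fderiv_eq]
      simp
    · intro x hx
      have h1 := (abs_le.1 (hb' x).1).1
      have h2 : 7 / 8 * R < b' x := by linarith
      refine ⟨hχ0 x h2.le, ?_⟩
      have h3 : χ =ᶠ[𝓝 x] fun _ => (0 : ℝ) := by
        filter_upwards [(isOpen_lt continuous_const hb'c).mem_nhds h2] with y hy
        exact hχ0 y (le_of_lt hy)
      rw [h3.fderiv_eq]
      simp
    · intro x v
      have h1 : HasFDerivAt b' (fderiv ℝ b' x) x :=
        (hb's.differentiable (by simp) x).hasFDerivAt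
      have h2 : HasDerivAt ψ (deriv ψ (b' x / R)) (b' x / R) :=
        (hψ.differentiable (by simp) _).hasDerivAt
      have h3 : HasFDerivAt (fun y => b' y / R) (R⁻¹ • fderiv ℝ b' x) x := by
        have h4 := h1.const_mul R⁻¹
        refine h4.congr_of_eventuallyEq (Eventually.of_forall fun y => ?_)
        show b' y / R = R⁻¹ * b' y
        rw [div_eq_inv_mul]
      have h5 : HasFDerivAt χ (deriv ψ (b' x / R) • (R⁻¹ • fderiv ℝ b' x)) x :=
        h2.comp_hasFDerivAt x h3
      rw [h5.fderiv]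
      have h6 : (deriv ψ (b' x / R) • (R⁻¹ • fderiv ℝ b' x)) v =
          deriv ψ (b' x / R) * (R⁻¹ * fderiv ℝ b' x v) := rfl
      rw [h6, abs_mul, abs_mul, abs_of_pos (inv_pos.2 hR0)]
      have h7 := (hb' x).2.1 v
      have h8 := hψd (b' x / R)
      have h9 : 0 ≤ nr g x v := Real.sqrt_nonneg _
      calc |deriv ψ (b' x / R)| * (R⁻¹ * |fderiv ℝ b' x v|)
          ≤ M * (R⁻¹ * (2 * nr g x v)) := by
            refine mul_le_mul h8 ?_ (by positivity) hM.le
            exact mul_le_mul_of_nonneg_left h7 (by positivity)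
        _ = 2 * M / R * nr g x v := by ring
  refine ⟨?_, 2 * M, by positivity, main⟩
  intro K hK κ' hκ'
  obtain ⟨B, hB⟩ := hK.exists_bound_of_continuousOn (f := b') hb'c.continuousOn
  let R : ℝ := max 9 (max (2 * (B + 1)) (2 * M / κ'))
  have hR9 : 9 ≤ R := le_max_left _ _
  have hRB : 2 * (B + 1) ≤ R := (le_max_left _ _).trans (le_max_right _ _)
  have hRM : 2 * M / κ' ≤ R := (le_max_right _ _).trans (le_max_right _ _)
  have hR0 : 0 < R := by linarith
  obtain ⟨χ, h1, h2, h3, -, h5⟩ := main R hR9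
  refine ⟨χ, h1, h2, ?_, ?_⟩
  · intro x hx
    refine (h3 x ?_).1
    have h6 := hB x hx
    rw [Real.norm_eq_abs] at h6
    have h7 := (abs_le.1 h6).2
    have h8 := (abs_le.1 (hb' x).1).1
    linarith
  · intro x v
    refine (h5 x v).trans (mul_le_mul_of_nonneg_right ?_ (Real.sqrt_nonneg _))
    rw [div_le_iff₀ hR0]
    rw [div_le_iff₀ hκ'] at hRM
    linarith

end Pool.Agent.Helper72.LH
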