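import Pool.Agent.Helper62.LH.StA

/-!
# Project LH (MP_087a81_gt), module DLV: the derivative of the volume density
-/

set_option autoImplicit false

namespace Pool.Agent.Helper72.LH

open Helper62.LH
open Set Filter Topology MeasureTheory
open scoped ContDiff

/-- Derivative of a determinant (copied from Pool/Agent/Helper99/PI/M_V2.lean). -/
theorem hasFDerivAt_det_DLV {E : Type*} [NormedAddCommGroup E] [NormedSpace ℝ E] {n : ℕ}
    (G : E → Matrix (Fin n) (Fin n) ℝ) (G' : Fin n → Fin n → E →L[ℝ] ℝ) (x : E)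
    (hG : ∀ i j, HasFDerivAt (fun y => G y i j) (G' i j) x) :
    HasFDerivAt (fun y => (G y).det)
      (∑ i, ∑ j, (G x).adjugate j i • G' i j) x := by
  have h1 : ∀ σ : Equiv.Perm (Fin n), HasFDerivAt
      (fun y => ((Equiv.Perm.sign σ : ℤ) : ℝ) * ∏ i, G y (σ i) i)
      (((Equiv.Perm.sign σ : ℤ) : ℝ) • ∑ i, (∏ j ∈ Finset.univ.erase i, G x (σ j) j) • G' (σ i) i)
      x := by
    intro σ
    exact (HasFDerivAt.finsetProd (fun i _ => hG (σ i) i)).const_mul _
  have h2 := HasFDerivAt.fun_sum (u := Finset.univ) (fun σ _ => h1 σ)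
  have h3 : (fun y => (G y).det) = fun y => ∑ σ : Equiv.Perm (Fin n),
      ((Equiv.Perm.sign σ : ℤ) : ℝ) * ∏ i, G y (σ i) i := by
    funext y
    rw [Matrix.det_apply']
  rw [h3]
  refine h2.congr_fderiv ?_
  refine ContinuousLinearMap.ext fun v => ?_
  symm
  have key : ∀ j : Fin n, ∑ i, (G x).adjugate j i * G' i j v
      = ∑ σ : Equiv.Perm (Fin n), ((Equiv.Perm.sign σ : ℤ) : ℝ)
        * ((∏ k ∈ Finset.univ.erase j, G x (σ k) k) * G' (σ j) j v) := by
    intro j
    have e1 : ∑ i, (G x).adjugate j i * G' i j v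
        = ((G x).updateCol j (fun i => G' i j v)).det := by
      rw [← Matrix.cramer_apply, Matrix.cramer_eq_adjugate_mulVec]
      rfl
    rw [e1, Matrix.det_apply']
    refine Finset.sum_congr rfl fun σ _ => ?_
    congr 1
    rw [← Finset.mul_prod_erase Finset.univ _ (Finset.mem_univ j), mul_comm]
    congr 1
    · refine Finset.prod_congr rfl fun k hk => ?_
      rw [Matrix.updateCol_ne (Finset.ne_of_mem_erase hk)]
    · rw [Matrix.updateCol_self]
  have lhs : (∑ i, ∑ j, (G x).adjugate j i • G' i j) v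
      = ∑ j, ∑ i, (G x).adjugate j i * G' i j v := by
    rw [Finset.sum_comm]
    simp
  rw [lhs, Finset.sum_congr rfl fun j _ => key j, Finset.sum_comm]
  simp [Finset.mul_sum]

theorem expand_DLV {n : ℕ} (v : E n) : v = ∑ i, v i • (ee i : E n) := by
  ext k
  simp [ee, Pi.single_apply]

theorem gm_posDef_DLV {n : ℕ} {g : E n → Bl n} (hg : IsMet g) (x : E n) : (gm g x).PosDef := by
  refine Matrix.PosDef.of_dotProduct_mulVec_pos ?_ ?_
  · ext i j
    simp only [Matrix.conjTranspose_apply, gm, Matrix.of_apply, star_trivial]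
    exact hg.symm x _ _
  · intro v hv
    let V : E n := WithLp.toLp 2 v
    have hV : V ≠ 0 := by
      intro h
      apply hv
      funext i
      have := congrArg (fun w : E n => w i) h
      simpa [V] using this
    have h1 := hg.pos x V hV
    have h2 : g x V V = star v ⬝ᵥ ((gm g x).mulVec v) := by
      have e : V = ∑ i, v i • (ee i : E n) := by
        have := expand_DLV V
        simpa [V] using this
      rw [e]
      simp only [map_sum, map_smul, sum_apply, smul_apply,
        smul_eq_mul, Finset.mul_sum, dotProduct, Matrix.mulVec, gm, Matrix.of_apply, star_trivial]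
      rw [Finset.sum_comm]
      refine Finset.sum_congr rfl fun i _ => Finset.sum_congr rfl fun j _ => ?_
      ring
    rw [← h2]
    exact h1

theorem gm_entry_DLV {n : ℕ} {g : E n → Bl n} (hg : IsMet g) (a b : Fin n) :
    ContDiff ℝ ∞ fun x => gm g x a b :=
  (hg.smooth.clm_apply contDiff_const).clm_apply contDiff_const

theorem det_contDiff_DLV {n : ℕ} {g : E n → Bl n} (hg : IsMet g) :
    ContDiff ℝ ∞ fun x => (gm g x).det := by
  simp only [Matrix.det_apply']
  refine ContDiff.sum fun σ _ => ?_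
  exact contDiff_const.mul (contDiff_prod fun i _ => gm_entry_DLV hg (σ i) i)

theorem hDlv (hChr : StChr) : StDlv := by
  intro n g Γ hg hΓ
  obtain ⟨-, -, hcomp⟩ := hChr n g Γ hg hΓ
  have hdet : ∀ x, 0 < (gm g x).det := fun x => (gm_posDef_DLV hg x).det_pos
  have hvolpos : ∀ x, 0 < vol g x := fun x => Real.sqrt_pos.2 (hdet x)
  refine ⟨?_, hvolpos, ?_⟩
  · exact (det_contDiff_DLV hg).sqrt (fun x => (hdet x).ne')
  intro x v
  -- derivative of the Gram matrix
  have hgd : HasFDerivAt g (fderiv ℝ g x) x :=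
    (hg.smooth.differentiable (by simp) x).hasFDerivAt
  let G' : Fin n → Fin n → E n →L[ℝ] ℝ := fun i j =>
    ((ContinuousLinearMap.apply ℝ ℝ (ee j : E n)).comp
      ((ContinuousLinearMap.apply ℝ (E n →L[ℝ] ℝ) (ee i : E n)).comp (fderiv ℝ g x)))
  have hG : ∀ i j, HasFDerivAt (fun y => gm g y i j) (G' i j) x := by
    intro i j
    have h1 : HasFDerivAt (fun y => g y (ee i))
        ((ContinuousLinearMap.apply ℝ (E n →L[ℝ] ℝ) (ee i : E n)).comp (fderiv ℝ g x)) x :=
      HasFDerivAt.comp (g := ContinuousLinearMap.apply ℝ (E n →L[ℝ] ℝ) (ee i : E n)) (f := g) x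
        (ContinuousLinearMap.apply ℝ (E n →L[ℝ] ℝ) (ee i : E n)).hasFDerivAt hgd
    exact HasFDerivAt.comp (g := ContinuousLinearMap.apply ℝ ℝ (ee j : E n))
      (f := fun y => g y (ee i)) x (ContinuousLinearMap.apply ℝ ℝ (ee j : E n)).hasFDerivAt h1
  have hG'v : ∀ i j, G' i j v = g x (Γ x v (ee i)) (ee j) + g x (ee i) (Γ x v (ee j)) := by
    intro i j
    exact hcomp x v (ee i) (ee j)
  have hD := hasFDerivAt_det_DLV (gm g) G' x hG
  -- the matrix of `Γ v`
  let T : Matrix (Fin n) (Fin n) ℝ := Matrix.of fun k i => (Γ x v (ee i)) k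
  have hT1 : ∀ i j, g x (Γ x v (ee i)) (ee j) = ∑ k, T k i * gm g x k j := by
    intro i j
    conv_lhs => rw [expand_DLV (Γ x v (ee i))]
    simp only [map_sum, map_smul, sum_apply, smul_apply,
      smul_eq_mul]
    rfl
  have hT2 : ∀ i j, g x (ee i) (Γ x v (ee j)) = ∑ k, gm g x i k * T k j := by
    intro i j
    conv_lhs => rw [expand_DLV (Γ x v (ee j))]
    simp only [map_sum, map_smul, smul_eq_mul]
    refine Finset.sum_congr rfl fun k _ => ?_
    rw [mul_comm]
    rfl
  have hH : ∀ i j, G' i j v = (T.transpose * gm g x + gm g x * T) i j := by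
    intro i j
    rw [hG'v, hT1, hT2, Matrix.add_apply, Matrix.mul_apply, Matrix.mul_apply]
    rfl
  have hDv : (∑ i, ∑ j, (gm g x).adjugate j i • G' i j) v = 2 * ((gm g x).det * T.trace) := by
    have e1 : (∑ i, ∑ j, (gm g x).adjugate j i • G' i j) v =
        ((gm g x).adjugate * (T.transpose * gm g x + gm g x * T)).trace := by
      simp only [sum_apply, smul_apply, smul_eq_mul,
        Matrix.trace, Matrix.diag_apply, Matrix.mul_apply]
      rw [Finset.sum_comm]
      refine Finset.sum_congr rfl fun j _ => Finset.sum_congr rfl fun i _ => ?_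
      rw [hH i j]
    rw [e1, mul_add, Matrix.trace_add, ← Matrix.mul_assoc, ← Matrix.mul_assoc,
      Matrix.adjugate_mul, Matrix.smul_mul, Matrix.one_mul, Matrix.trace_smul,
      Matrix.trace_mul_comm ((gm g x).adjugate * T.transpose) (gm g x), ← Matrix.mul_assoc,
      Matrix.mul_adjugate, Matrix.smul_mul, Matrix.one_mul, Matrix.trace_smul,
      Matrix.trace_transpose, smul_eq_mul]
    ring
  have hvd : HasFDerivAt (vol g)
      ((1 / (2 * √(gm g x).det)) • (∑ i, ∑ j, (gm g x).adjugate j i • G' i j)) x := by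
    exact hD.sqrt (hdet x).ne'
  rw [hvd.fderiv, smul_apply, hDv, smul_eq_mul]
  have htr : T.trace = ∑ i, (Γ x v (ee i)) i := rfl
  rw [← htr]
  have hs : √(gm g x).det * √(gm g x).det = (gm g x).det := Real.mul_self_sqrt (hdet x).le
  have hs0 : 0 < √(gm g x).det := hvolpos x
  show 1 / (2 * √(gm g x).det) * (2 * ((gm g x).det * T.trace)) = √(gm g x).det * T.trace
  rw [← hs]
  rw [Real.sqrt_mul_self hs0.le]
  field_simp

end Pool.Agent.Helper72.LH
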